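import Pool.Agent.H608.Fd.Ran
import Mathlib

/-!
# Subseries of the binomial series of `√2`

For every rational `α` with `0 < α < 2` the binomial series gives
`√2 = ∑ α * C(2k, k) * ((2 - α ^ 2) / 8) ^ k`, for instance `√2 = (4 / 3) ∑ C(2k, k) / 36 ^ k`. We show
that there is one very sparse set `E` such that all these series, with the terms `k ∈ E` deleted, have
sums which are normal in every base `b` that is not divisible by some prime factor of the denominator of
`α` (for `α = 4 / 3` these are all the bases which are not multiples of `3`). The same holds for almost all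
random subseries.
-/

set_option autoImplicit false

namespace Pool.Agent.Results.MP_0308e6_nt.BinomialSeries

open Finset Filter Topology MeasureTheory ProbabilityTheory

/-- the terms of the binomial series `√2 = α (1 - (2 - α ^ 2) / 2) ^ (-1/2)` -/
noncomputable def term (α : ℚ) (k : ℕ) : ℝ :=
  α * Nat.centralBinom k * ((2 - (α : ℝ) ^ 2) / 8) ^ k

/-- the sum of the terms with `k ∈ A` -/
noncomputable def sumOver (α : ℚ) (A : Set ℕ) : ℝ := ∑' k, A.indicator (term α) k

/-- the digit of `x` in base `b` at position `i` after the point -/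
noncomputable def digit (b : ℕ) (x : ℝ) (i : ℕ) : ℤ := ⌊x * (b : ℝ) ^ i⌋ % (b : ℤ)

/-- normality in base `b`: every word of `m` digits occurs along the positions `1, 2, ...` with
limiting frequency `b ^ (-m)` -/
def Normal (b : ℕ) (x : ℝ) : Prop :=
  ∀ m : ℕ, 1 ≤ m → ∀ w : Fin m → Fin b,
    Tendsto (fun N : ℕ => (((Icc 1 N).filter fun i : ℕ =>
      ∀ t : Fin m, digit b x (i + (t : ℕ)) = ((w t : ℕ) : ℤ)).card : ℝ) / (N : ℝ))
      atTop (𝓝 (1 / (b : ℝ) ^ m))

/-- `b ≥ 2`, `0 < α < 2` and some prime factor of the denominator of `α` does not divide `b` -/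
def Admissible (α : ℚ) (b : ℕ) : Prop :=
  2 ≤ b ∧ 0 < α ∧ α < 2 ∧ ∃ p : ℕ, p.Prime ∧ p ∣ α.den ∧ ¬ p ∣ b

lemma term_cast (α : ℚ) (k : ℕ) : term α k = (Pool.Agent.H608.Fd.term α k : ℝ) := by
  unfold term Pool.Agent.H608.Fd.term
  push_cast
  rfl

lemma normal_of_wn (b : ℕ) (hb : 2 ≤ b) (x : ℝ) (h : Pool.Agent.Q77.Few.Wn b x) : Normal b x := by
  have h1 := Pool.Agent.Q77.Few.normal_of_weyl b hb x h
  intro m hm w
  refine (h1 m hm w).congr fun N => ?_
  congr 2
  apply Finset.card_bij (fun i _ => i + 1)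
  · intro i hi
    rw [mem_filter, mem_range] at hi
    rw [mem_filter, mem_Icc]
    refine ⟨by omega, fun t => ?_⟩
    exact hi.2 t
  · intro i _ j _ hij
    simpa using hij
  · intro i hi
    rw [mem_filter, mem_Icc] at hi
    refine ⟨i - 1, ?_, by omega⟩
    rw [mem_filter, mem_range]
    refine ⟨by omega, fun t => ?_⟩
    have h2 := hi.2 t
    rw [digit] at h2
    rw [show i - 1 + 1 + (t : ℕ) = i + t by omega]
    exact h2

lemma four_thirds (b : ℕ) (hb : 2 ≤ b) (h3 : ¬ 3 ∣ b) : Admissible (4 / 3) b := by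
  refine ⟨hb, by norm_num, by norm_num, 3, Nat.prime_three, ?_, h3⟩
  have : ((4 / 3 : ℚ)).den = 3 := by
    rw [show (4 / 3 : ℚ) = ((4 : ℤ) : ℚ) / ((3 : ℤ) : ℚ) by norm_num]
    exact (Rat.den_div_eq_of_coprime (by norm_num) (by norm_num : Nat.Coprime 4 3)) |> Int.natCast_inj.1
  rw [this]

lemma exists_adm (b : ℕ) (hb : 2 ≤ b) : ∃ α : ℚ, Admissible α b := by
  obtain ⟨p, hp1, hp⟩ := Nat.exists_infinite_primes (b + 1)
  have hp0 : (0 : ℚ) < p := by exact_mod_cast hp.pos
  refine ⟨1 / p, hb, by positivity, ?_, p, hp, ?_, ?_⟩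
  · rw [div_lt_iff₀ hp0]
    have : (2 : ℚ) ≤ p := by exact_mod_cast hp.two_le
    linarith
  · rw [one_div, Rat.inv_natCast_den_of_pos hp.pos]
  · intro h
    have := Nat.le_of_dvd (by omega) h
    omega

theorem result :
    -- the series
    (∀ α : ℚ, 0 < α → α < 2 → HasSum (term α) (Real.sqrt 2)) ∧
    (∀ b : ℕ, 2 ≤ b → ∃ α : ℚ, Admissible α b) ∧
    (∀ b : ℕ, 2 ≤ b → ¬ 3 ∣ b → Admissible (4 / 3) b) ∧
    -- a sparse set of deleted terms
    (∀ S : Set ℝ, S.Countable → ∃ E : Set ℕ, E.Infinite ∧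
      (∀ n : ℕ, {k : ℕ | k ∈ E ∧ k < n}.ncard ≤ Nat.log 2 (Nat.log 2 n) + 2) ∧
      ∀ (α : ℚ) (b : ℕ), Admissible α b →
        Normal b (sumOver α Eᶜ) ∧ ∀ y ∈ S, Normal b (y + sumOver α E)) ∧
    -- random subseries
    (∀ {Ω : Type} [MeasurableSpace Ω] (μ : Measure Ω) [IsProbabilityMeasure μ]
      (T : Ω → Set ℕ) (q : ℕ → ℝ),
      (∀ k, MeasurableSet {ω | k ∈ T ω}) → iIndepSet (fun k => {ω | k ∈ T ω}) μ →
      (∀ k, μ.real {ω | k ∈ T ω} = q k) →
      Tendsto (fun k : ℕ => q k * (1 - q k) * Real.log k) atTop atTop →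
      ∀ S : Set ℝ, S.Countable → ∀ᵐ ω ∂μ, ∀ (α : ℚ) (b : ℕ), Admissible α b →
        ∀ y ∈ S, Normal b (y + sumOver α (T ω))) := by
  have hterm : ∀ (α : ℚ) (A : Set ℕ), sumOver α A =
      ∑' k, A.indicator (fun k => (Pool.Agent.H608.Fd.term α k : ℝ)) k := by
    intro α A
    unfold sumOver
    congr 1
    ext k
    congr 1
    ext j
    exact term_cast α j
  refine ⟨?_, exists_adm, four_thirds, ?_, ?_⟩
  · intro α h0 h2
    have h1 := Pool.Agent.H608.Fd.hasSum_term α h0 h2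
    convert h1 using 1
    ext k
    exact term_cast α k
  · intro S hS
    obtain ⟨E, h1, h2, h3⟩ := Pool.Agent.H608.Fd.exists_E S hS
    refine ⟨E, h1, h2, ?_⟩
    rintro α b ⟨hb, h0, h2', hp⟩
    obtain ⟨h4, h5⟩ := h3 α h0 h2' b hb hp
    refine ⟨?_, fun y hy => ?_⟩
    · rw [hterm]
      exact normal_of_wn b hb _ h4
    · rw [hterm]
      exact normal_of_wn b hb _ (h5 y hy)
  · intro Ω _ μ _ T q hm hi hq hlog S hS
    have h1 := Pool.Agent.H608.Fd.ae_ran μ T q ⟨hm, hi, hq⟩ hlog S hS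
    filter_upwards [h1] with ω hω
    rintro α b ⟨hb, h0, h2', hp⟩ y hy
    rw [hterm]
    exact normal_of_wn b hb _ (hω y hy α h0 h2' b hb hp)

end Pool.Agent.Results.MP_0308e6_nt.BinomialSeries
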