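import Pool.Agent.H608.Sp.Mul
import Pool.Agent.H608.Sp.Root2
import Mathlib

/-!
# Absolutely normal numbers from the product for `√2` with very few factors omitted

The partial products of `(1 + 1) (1 - 1/3) (1 + 1/5) (1 - 1/7) (1 + 1/9) ⋯` converge to `√2`. We
omit the factors `1 + 1 / (4 m + 1)` with `m` in a very sparse set `E`, which has at most
`C log log log K` elements up to `K`. The new product `√2 ρ` is normal in every integer base. The
same `ρ` makes all numbers of a given countable set (for instance all real algebraic numbers)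
absolutely normal, and linearly independent numbers jointly normal.

The proof uses Vinogradov–Korobov bounds for the digits of `c + x / (m + 1 / 2)` for most integers `m`
of a dyadic interval.
-/

set_option autoImplicit false

namespace Pool.Agent.Results.MP_0308e6_nt.FewOmittedFactors

open Finset Filter Topology
open Pool.Agent.H608.Sp

/-- the digit of `x` in base `b` at position `i` after the point -/
noncomputable def digit (b : ℕ) (x : ℝ) (i : ℕ) : ℤ := ⌊x * (b : ℝ) ^ i⌋ % (b : ℤ)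

open Classical in
/-- the tuple `x` is jointly normal in base `b`: every digit matrix with `n` rows and `m` columns
occurs along the positions with limiting frequency `b ^ (-(m * n))` -/
def JointlyNormal (b : ℕ) {n : ℕ} (x : Fin n → ℝ) : Prop :=
  ∀ m : ℕ, 1 ≤ m → ∀ D : Fin n → Fin m → Fin b,
    Tendsto (fun N : ℕ => (((Icc 1 N).filter fun i : ℕ =>
      ∀ (j : Fin n) (t : Fin m), digit b (x j) (i + (t : ℕ)) = ((D j t : ℕ) : ℤ)).card : ℝ) / (N : ℝ))
      atTop (𝓝 (1 / (b : ℝ) ^ (m * n)))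

/-- the factors of the product `√2 = (1 + 1) (1 - 1/3) (1 + 1/5) (1 - 1/7) ⋯` -/
noncomputable def factor (k : ℕ) : ℝ := 1 + (-1) ^ k / (2 * (k : ℝ) + 1)

/-- `A` has at least `H exp (- (log H) ^ (2 / 5))` elements in `[H, 2 H)`, for all large `H` -/
def NotTooSparse (A : Set ℕ) : Prop :=
  ∀ᶠ H : ℕ in atTop, H * Real.exp (-(Real.log H) ^ (2 / 5 : ℝ)) ≤
    (({k : ℕ | k ∈ A ∧ H ≤ k ∧ k < 2 * H}.ncard : ℕ) : ℝ)

lemma jn_of_nt (b : ℕ) {n : ℕ} (x : Fin n → ℝ) (h : Pool.Agent.W206.ND.NT b x) :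
    JointlyNormal b x := by
  intro m hm D
  have h1 := h m hm D
  refine h1.congr fun N => ?_
  congr 2

lemma small (k : ℕ) : |(1 / 4 : ℝ) * (((k + 1 : ℕ) : ℝ) - 1 / 2)⁻¹| ≤ 1 / 2 * (1 / ((k : ℝ) + 1)) := by
  push_cast
  have hk : (0 : ℝ) ≤ k := Nat.cast_nonneg k
  have h1 : (0 : ℝ) < (k : ℝ) + 1 - 1 / 2 := by linarith
  rw [abs_of_pos (by positivity), ← div_eq_mul_inv, div_le_iff₀ h1]
  have h2 : 1 / 2 * (1 / ((k : ℝ) + 1)) * ((k : ℝ) + 1 - 1 / 2) =
      1 / 2 - 1 / 4 * (1 / ((k : ℝ) + 1)) := by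
    field_simp
    ring
  rw [h2]
  have h3 : 1 / ((k : ℝ) + 1) ≤ 1 := by
    rw [div_le_one (by linarith)]
    linarith
  linarith

lemma one_sub_eq (k : ℕ) : 1 - (1 / 4 : ℝ) * (((k + 1 : ℕ) : ℝ) - 1 / 2)⁻¹ = (factor (2 * k))⁻¹ := by
  have h1 : factor (2 * k) = 1 + 1 / (4 * (k : ℝ) + 1) := fac_even k
  rw [h1]
  push_cast
  have hk : (0 : ℝ) ≤ k := Nat.cast_nonneg k
  have h2 : ((k : ℝ) + 1 - 1 / 2) ≠ 0 := by linarith
  have h3 : (4 * (k : ℝ) + 1) ≠ 0 := by positivity
  have h4 : 1 + 1 / (4 * (k : ℝ) + 1) ≠ 0 := by positivity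
  rw [eq_comm, inv_eq_iff_eq_inv, eq_comm]
  apply inv_eq_of_mul_eq_one_left
  have h5 : ((k : ℝ) + 1 - 1 / 2) = (4 * (k : ℝ) + 2) / 4 := by ring
  rw [h5]
  have h6 : (4 * (k : ℝ) + 2) ≠ 0 := by positivity
  field_simp
  ring

open Classical in
theorem result :
    -- the product for `√2`
    Tendsto (fun N : ℕ => ∏ k ∈ range N, factor k) atTop (𝓝 (Real.sqrt 2)) ∧
    -- omission of few factors
    ∃ C : ℝ, 0 < C ∧ ∀ A : Set ℕ, NotTooSparse A → ∀ M : ℕ, ∀ S : Set ℝ, S.Countable →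
      ∃ (E : Set ℕ) (ρ : ℝ), E ⊆ A ∧ (∀ m ∈ E, M ≤ m) ∧
        (∀ K : ℕ, 16 ≤ K → (({m : ℕ | m ∈ E ∧ m ≤ K}.ncard : ℕ) : ℝ) ≤
          C * Real.log (Real.log (Real.log K))) ∧
        Tendsto (fun N : ℕ => ∏ k ∈ (range N).filter (fun k => ¬ ∃ m ∈ E, k = 2 * m), factor k)
          atTop (𝓝 (Real.sqrt 2 * ρ)) ∧
        (∀ b : ℕ, 2 ≤ b → JointlyNormal b (fun _ : Fin 1 => Real.sqrt 2 * ρ)) ∧
        (∀ (n : ℕ) (α : Fin n → ℝ), (∀ j, α j ∈ S) → LinearIndependent ℚ α →
          ∀ b : ℕ, 2 ≤ b → JointlyNormal b (fun j => α j * ρ)) := by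
  refine ⟨prod_fac, ?_⟩
  obtain ⟨C, hC, hmaster⟩ := master
  refine ⟨C, hC, fun A hA M S hS => ?_⟩
  obtain ⟨x, hx0, ⟨i₁, hi₁⟩, hx⟩ := exists_enum (S ∪ {Real.sqrt 2}) (hS.union (Set.countable_singleton _))
  obtain ⟨E, _, hEA, hEK, hE⟩ := hmaster (fun i => mulProc (x i) (1 / 4) (1 / 2) (hx0 i) (by norm_num)
    (by norm_num) (by norm_num) small) A hA M
  obtain ⟨ρ, hρ1, hρ2⟩ := hE i₁
  -- the limits of the other processes
  have hlim : ∀ i b, 2 ≤ b → Freq b (x i * ρ) := by
    intro i b hb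
    obtain ⟨X, hX1, hX2⟩ := hE i
    have h1 : X = x i * ρ := by
      apply tendsto_nhds_unique hX1
      have h2 := hρ1.const_mul (x i)
      refine h2.congr fun N => ?_
      simp only [mulProc]
      rw [hi₁, one_mul]
    rw [← h1]
    exact hX2 b hb
  have hjoint : ∀ (n : ℕ) (α : Fin n → ℝ), (∀ j, α j ∈ S ∪ {Real.sqrt 2}) → LinearIndependent ℚ α →
      ∀ b : ℕ, 2 ≤ b → JointlyNormal b (fun j => α j * ρ) := by
    intro n α hα hlin b hb
    apply jn_of_nt
    apply nt_of_freq b n _ hb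
    intro h hh
    obtain ⟨i, hi⟩ := hx n α h hα (comb_ne_zero hlin h hh)
    have h1 : ∑ j, (h j : ℝ) * (α j * ρ) = x i * ρ := by
      rw [hi, sum_mul]
      exact sum_congr rfl fun j _ => by ring
    rw [h1]
    exact hlim i b hb
  refine ⟨E, ρ, fun k hk => (hEA k hk).1, fun k hk => (hEA k hk).2, hEK, ?_, ?_, ?_⟩
  · -- the product with omitted factors
    have hfac0 : ∀ k, factor (2 * k) ≠ 0 := fun k => by
      have h1 : factor (2 * k) = 1 + 1 / (4 * (k : ℝ) + 1) := fac_even k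
      rw [h1]
      positivity
    have h1 : Tendsto (fun N : ℕ => ∏ k ∈ (range ((N + 1) / 2)).filter (· ∈ E), (factor (2 * k))⁻¹)
        atTop (𝓝 ρ) := by
      have h2 : Tendsto (fun N : ℕ => (N + 1) / 2) atTop atTop := by
        rw [tendsto_atTop]
        intro l
        filter_upwards [eventually_ge_atTop (2 * l)] with N hN
        omega
      refine (hρ1.comp h2).congr fun N => ?_
      simp only [Function.comp_apply, mulProc]
      rw [hi₁, one_mul]
      exact prod_congr rfl fun k _ => one_sub_eq k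
    refine (prod_fac.mul h1).congr fun N => ?_
    have h3 : ∏ k ∈ (range ((N + 1) / 2)).filter (· ∈ E), factor (2 * k) =
        ∏ k ∈ (range N).filter (fun k => ∃ m ∈ E, k = 2 * m), factor k := by
      symm
      apply prod_nbij' (fun k => k / 2) (fun m => 2 * m)
      · intro k hk
        rw [mem_filter, mem_range] at hk ⊢
        obtain ⟨hk1, m, hm, rfl⟩ := hk
        rw [Nat.mul_div_cancel_left m (by norm_num)]
        exact ⟨by omega, hm⟩
      · intro m hm
        rw [mem_filter, mem_range] at hm ⊢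
        exact ⟨by omega, m, hm.2, rfl⟩
      · intro k hk
        rw [mem_filter] at hk
        obtain ⟨hk1, m, hm, rfl⟩ := hk
        omega
      · intro m _
        omega
      · intro k hk
        rw [mem_filter] at hk
        obtain ⟨hk1, m, hm, rfl⟩ := hk
        rw [Nat.mul_div_cancel_left m (by norm_num)]
    have h4 := prod_filter_mul_prod_filter_not (range N) (fun k => ∃ m ∈ E, k = 2 * m) factor
    have h5 : ∏ k ∈ range N, fac k = ∏ k ∈ range N, factor k := rfl
    have h6 : ∏ k ∈ (range ((N + 1) / 2)).filter (· ∈ E), factor (2 * k) ≠ 0 :=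
      prod_ne_zero_iff.2 fun k _ => hfac0 k
    rw [h5, ← h4, ← h3, prod_inv_distrib]
    field_simp
  · intro b hb
    have h1 : LinearIndependent ℚ (fun _ : Fin 1 => Real.sqrt 2) := by
      apply LinearIndependent.of_subsingleton (0 : Fin 1)
      positivity
    exact hjoint 1 (fun _ => Real.sqrt 2) (fun _ => Or.inr rfl) h1 b hb
  · intro n α hα hlin b hb
    exact hjoint n α (fun j => Or.inl (hα j)) hlin b hb

end Pool.Agent.Results.MP_0308e6_nt.FewOmittedFactors
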