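import Pool.Agent.H723.QF.F3
import Pool.Agent.H723.QF.F4

/-!
# MP_0308e6_nt: the Lempel-Ziv complexity of the digits of algebraic numbers, in all bases

Let `α_1, …, α_k` be real algebraic numbers such that `1, α_1, …, α_k` are linearly independent
over `ℚ`; for instance `k = 1` and `α_1 = √2`, or `√2, √3, √6`.  Let `digit b ξ n` be the `n`-th
digit of `ξ` after the point in base `b`.

A word `v 0, …, v (N-1)` of real numbers is *produced by `z` instructions with copies of order
`D`* if it is written from left to right by `z` instructions of the following two kinds: write one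
arbitrary letter; or write an arbitrarily long block of letters, at the places `s ≤ t < e`, by
`v t = a + ∑ d ∈ S, c d * v (t - d) + ∑ x ∈ T, c' x * u x.1 (x.2 + (t - s))`, for a constant `a`,
real coefficients, a set `S` of distances with `1 ≤ d ≤ s` for `d ∈ S`, and a set `T` of windows of
the digits `u i` of the *other* numbers `α_i`, `i ≠ i₀`, which start at places `x.2 ≤ K s`, with
`#S + #T ≤ D`.  The parsings of Lempel and Ziv (LZ77) are those of order `1` with `T = ∅`, `a = 0`
and all the coefficients equal to `1`; those of order `0` count the blocks of equal digits.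

The theorem.  There are `c > 0` and `N₀`, which depend on the `α_i`, `D` and `K` only, so that for
**all** bases `b ≥ 2`, all `i₀` and all `N ≥ N₀`:

* if the first `N` digits of `α_(i₀)` are produced by `z` instructions with copies of order `D`,
  then `z ≥ c (log N) ^ (3 / 2) / (log log N) ^ (1 / 2)`: the digits of the other numbers do not
  help to compress them;
* if another word of length `N` is so produced, then `z` plus the number of the places at which it
  differs from the digits is at least `c (log N) ^ (5 / 4) / (log log N) ^ (3 / 4)`, and if the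
  order is `1` (in particular for all parsings of Lempel and Ziv), it is at least
  `c (log N) ^ (3 / 2) / (log log N) ^ (3 / 2)`;
* the bounds for the order `1` hold for the number of the words of a straight-line grammar which
  derives the digits, or the other word.

The proof makes the subspace theorem for sums of few powers of `b` with coefficients which are
small integer combinations of the `α_i` quantitative: the exceptional scales for approximations by
sums of `D` powers of `b`, with exponents up to `C m`, are at most `A C ^ 2 (1 + log C)` in number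
(dyadic scales), for every `D`.  There are two main ingredients: auxiliary polynomials with weights
which are different for each approximation, so that no approximations of similar shape have to be
selected; and a version of Roth's lemma with a polynomial condition for the quotients of the
degrees, which is derived from an elementary form of Faltings' product theorem (a counting argument
with the pigeonhole principle).  For the errors and the order `1`: blocks which are copied from the
same place, at which there are many errors, are affine images of each other.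
-/

set_option autoImplicit false

namespace Pool.Agent.Results.MP_0308e6_nt.LempelZivThreeHalves

open Finset Pool.Agent.H723.LZ Pool.Agent.H723.QJ Pool.Agent.H723.QF

/-- the `n`-th digit after the point of `ξ` in base `b` -/
noncomputable def digit (b : ℕ) (ξ : ℝ) (n : ℕ) : ℤ := ⌊ξ * (b : ℝ) ^ n⌋ % (b : ℤ)

/-- Instructions and grammars for the digits of an algebraic irrational number, in all bases. -/
theorem result {k : ℕ} (α : Fin k → ℝ) (hα : ∀ i, IsAlgebraic ℚ (α i))
    (hlin : LinearIndependent ℚ (Fin.cons 1 α : Fin (k + 1) → ℝ)) (K : ℕ) (hK : 1 ≤ K) :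
    (∀ D : ℕ, ∃ c : ℝ, 0 < c ∧ ∃ N₀ : ℕ, ∀ b : ℕ, 2 ≤ b → ∀ i₀ : Fin k, ∀ N ≥ N₀,
      ∀ (v : ℕ → ℝ) (z : ℕ),
        ProducesS i₀ D K (fun i t => (digit b (α i) (t + 1) : ℝ)) v N z →
          ((∀ t < N, v t = (digit b (α i₀) (t + 1) : ℝ)) →
            c * (Real.log N ^ (3 / 2 : ℝ) / Real.log (Real.log N) ^ (1 / 2 : ℝ)) ≤ z) ∧
          c * (Real.log N ^ (5 / 4 : ℝ) / Real.log (Real.log N) ^ (3 / 4 : ℝ)) ≤
            z + #{t ∈ range N | v t ≠ (digit b (α i₀) (t + 1) : ℝ)}) ∧
    (∃ c : ℝ, 0 < c ∧ ∃ N₀ : ℕ, ∀ b : ℕ, 2 ≤ b → ∀ i₀ : Fin k, ∀ N ≥ N₀,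
      ∀ (v : ℕ → ℝ) (z : ℕ),
        ProducesS i₀ 1 K (fun i t => (digit b (α i) (t + 1) : ℝ)) v N z →
          c * (Real.log N ^ (3 / 2 : ℝ) / Real.log (Real.log N) ^ (3 / 2 : ℝ)) ≤
            z + #{t ∈ range N | v t ≠ (digit b (α i₀) (t + 1) : ℝ)}) ∧
    (∃ c : ℝ, 0 < c ∧ ∃ N₀ : ℕ, ∀ b : ℕ, 2 ≤ b → ∀ i₀ : Fin k, ∀ N ≥ N₀,
      ∀ W : Finset (List ℝ), IsGrammar W → ∀ u ∈ W, u.length = N →
        ((∀ t < N, u.getD t 0 = (digit b (α i₀) (t + 1) : ℝ)) →
          c * (Real.log N ^ (3 / 2 : ℝ) / Real.log (Real.log N) ^ (1 / 2 : ℝ)) ≤ #W) ∧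
        c * (Real.log N ^ (3 / 2 : ℝ) / Real.log (Real.log N) ^ (3 / 2 : ℝ)) ≤
          #W + #{t ∈ range N | u.getD t 0 ≠ (digit b (α i₀) (t + 1) : ℝ)}) := by
  classical
  have hpos : ∀ N : ℕ, 16 ≤ N → 0 ≤ Real.log N ∧ 0 ≤ Real.log (Real.log N) := by
    intro N hN16
    have hlog1 : 1 ≤ Real.log N := by
      have h5 : Real.exp 1 ≤ N := by
        have h6 := Real.exp_one_lt_d9
        have h7 : (16 : ℝ) ≤ N := by exact_mod_cast hN16
        linarith
      rw [Real.le_log_iff_exp_le (by linarith [Real.exp_pos 1])]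
      exact h5
    exact ⟨by linarith, Real.log_nonneg hlog1⟩
  obtain ⟨c3, hc3, N3, h3⟩ := finSE1 α hα hlin K hK
  refine ⟨?_, ?_, ?_⟩
  · intro D
    obtain ⟨c1, hc1, N1, h1⟩ := finSA α hα hlin D K hK
    obtain ⟨c2, hc2, N2, h2⟩ := finSE α hα hlin D K hK
    refine ⟨min c1 c2, lt_min hc1 hc2, max N1 (max N2 16), fun b hb i₀ N hN => ?_⟩
    have hN1 : N1 ≤ N := by omega
    have hN2 : N2 ≤ N := by omega
    obtain ⟨hl, hll⟩ := hpos N (by omega)
    have hx1 : 0 ≤ Real.log N ^ (3 / 2 : ℝ) / Real.log (Real.log N) ^ (1 / 2 : ℝ) := by positivity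
    have hx2 : 0 ≤ Real.log N ^ (5 / 4 : ℝ) / Real.log (Real.log N) ^ (3 / 4 : ℝ) := by positivity
    refine fun v z hP => ⟨fun hdig => ?_, ?_⟩
    · exact (mul_le_mul_of_nonneg_right (min_le_left _ _) hx1).trans
        (h1 b hb i₀ N hN1 v z hP hdig)
    · have h5 := h2 b hb i₀ N hN2 v z hP
      push_cast at h5
      exact (mul_le_mul_of_nonneg_right (min_le_right _ _) hx2).trans h5
  · refine ⟨c3, hc3, N3, fun b hb i₀ N hN v z hP => ?_⟩
    have h5 := h3 b hb i₀ N hN v z hP
    push_cast at h5
    exact h5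
  · obtain ⟨c1, hc1, N1, h1⟩ := finSA α hα hlin 1 K hK
    refine ⟨min c1 c3 / 2, by have := lt_min hc1 hc3; positivity, max N1 (max N3 16),
      fun b hb i₀ N hN W hW u hu huN => ?_⟩
    have hN1 : N1 ≤ N := by omega
    have hN3 : N3 ≤ N := by omega
    obtain ⟨hl, hll⟩ := hpos N (by omega)
    have hx1 : 0 ≤ Real.log N ^ (3 / 2 : ℝ) / Real.log (Real.log N) ^ (1 / 2 : ℝ) := by positivity
    have hx2 : 0 ≤ Real.log N ^ (3 / 2 : ℝ) / Real.log (Real.log N) ^ (3 / 2 : ℝ) := by positivity
    obtain ⟨z, hz, hP'⟩ := produces_of_grammar (v := fun i => u.getD i 0) hW hu (fun i hi =>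
      List.getD_eq_getElem _ _ hi)
    rw [huN] at hP'
    have hP := toS i₀ 1 K (fun i t => (digit b (α i) (t + 1) : ℝ)) hP'
    have hW1 : 1 ≤ #W := Finset.card_pos.mpr ⟨u, hu⟩
    have hz' : (z : ℝ) ≤ 2 * #W := by exact_mod_cast (by omega : z ≤ 2 * #W)
    have hE0 : (0 : ℝ) ≤ #{t ∈ range N | u.getD t 0 ≠ (digit b (α i₀) (t + 1) : ℝ)} := by
      positivity
    refine ⟨fun hdig => ?_, ?_⟩
    · have h5 := (mul_le_mul_of_nonneg_right (min_le_left c1 c3) hx1).trans
        (h1 b hb i₀ N hN1 _ z hP hdig)
      linarith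
    · have h5 := h3 b hb i₀ N hN3 _ z hP
      push_cast at h5
      have h6 := (mul_le_mul_of_nonneg_right (min_le_right c1 c3) hx2).trans h5
      have h7 : (#{t ∈ range N | u.getD t 0 ≠ (digit b (α i₀) (t + 1) : ℝ)} : ℝ) =
        (#{t ∈ range N | u.getD t 0 ≠ (Pool.Agent.H723.QP.dg b (α i₀) (t + 1) : ℝ)} : ℝ) := rfl
      rw [← h7] at h6
      linarith

end Pool.Agent.Results.MP_0308e6_nt.LempelZivThreeHalves
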