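import Pool.Agent.H607.Sp.BCorr
import Pool.Agent.H607.Sp.Weights
import Pool.Agent.H607.Sp.Rich
import Pool.Agent.H607.Mix.Digits
import Pool.Agent.H607.Mix.Count
import Mathlib

/-!
# Very sparse sets `A` for which `∑_{a ∈ A} √2 / 2^a` is a normal number

For a set `A` of positive integers and an integer `b ≥ 2` let `y_b(A) = ∑_{a ∈ A} b^(-a)`, the number
whose base-`b` digits are `1` at the places `a ∈ A` and `0` at all other places.

1. Let `X` be ANY countable set of irrational numbers which are not Liouville numbers (for instance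
   `X = {√2, π, e, log 2, ζ(3)}`), and let `Γ` be any countable set of reals. There is one set `A` with at most
   `N (log log N)^3 / log N` elements up to `N` (for all large `N`), in particular of density zero, such that for
   ALL bases `b ≥ 2`, all `x ∈ X` and all `c ∈ Γ` the number
   `x y_b(A) + c = c + ∑_{a ∈ A} x / b^a` is normal in base `b`.
2. There is one set `A` with at most `N (log log N)^8 / (log N)^3` elements up to `N` (for all large `N`)
   such that for ALL bases `b ≥ 2`, all `k`, all real algebraic numbers `x_1, …, x_k` such that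
   `1, x_1, …, x_k` are linearly independent over `ℚ` and all real algebraic `c_1, …, c_k` the numbers
   `x_1 y_b(A) + c_1, …, x_k y_b(A) + c_k` are jointly normal in base `b`. In particular `√2 y_2(A)`,
   which is the sum of the binary shifts `√2 / 2^a`, `a ∈ A`, of `√2`, is normal in base `2`.

For `y_2(A) = 1` the last statement would be the problem (with simply normal instead of normal).

The proof: `A` is random, `i ∈ A` with probability `1 / w_i`, independently, `w_i ≈ (log i)^α / (log log i)^β`.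
The correlations `E(e(x (b^n' - b^n) y))` are small if among the numbers `k ≤ n' - n` there are many with
`‖b^k x‖ ≥ 1 / (2 b)`. For a number which is not a Liouville number at least `c log n` of the `k ≤ n` have this
property. For irrational algebraic numbers there are at least `c (log n)^3 / (log log n)^5`, by the
quantitative subspace theorem (team library). These two bounds for the number of digit changes are the only
input from the theory of diophantine approximation.
-/

set_option autoImplicit false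

namespace Pool.Agent.Results.MP_0308e6_nt.SparseFactor

open Finset Filter Topology MeasureTheory
open Pool.Agent.W206.ND (ee)
open Pool.Agent.H607 Pool.Agent.H607.Mix Pool.Agent.H607.Sp

/-- `z_1, …, z_k` are jointly normal in base `b`: every matrix `D` of digits with `k` rows and `m` columns
occurs at the places `n+1, …, n+m` of the base-`b` expansions of `z_1, …, z_k` with frequency
`b ^ (- m k)` -/
def JointlyNormal (b k : ℕ) (z : Fin k → ℝ) : Prop :=
  ∀ (m : ℕ) (D : Fin k → Fin m → Fin b),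
    Tendsto (fun N : ℕ => (((range N).filter (fun n => ∀ (j : Fin k) (t : Fin m),
      ⌊z j * (b : ℝ) ^ (n + (t : ℕ) + 1)⌋ % (b : ℤ) = ((D j t : ℕ) : ℤ))).card : ℝ) / N)
      atTop (𝓝 (1 / (b : ℝ) ^ (m * k)))

lemma jn {b : ℕ} (hb : 2 ≤ b) {k : ℕ} {z : Fin k → ℝ} (h : ∀ h : Fin k → ℤ, h ≠ 0 →
    Tendsto (fun N : ℕ => SS (fun n => (∑ j, (h j : ℝ) * z j) * (b : ℝ) ^ n) N / (N : ℂ)) atTop (𝓝 0)) :
    JointlyNormal b k z := by
  intro m D
  have h1 := digits b hb (fun _ => b) (by simp) k z (by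
    intro u v huv
    have h2 := boxes k z (fun n => (b : ℝ) ^ n) h u v huv
    simpa only [prod_const, card_range] using h2) m D
  simpa only [prod_const, card_range] using h1

/-- the random set -/
def AA (w : ℕ → ℕ) (ω : ∀ i, Fin (w i)) : Set ℕ := {i | i ≠ 0 ∧ (ω i : ℕ) = 0}

lemma aa_sum (w : ℕ → ℕ) (ω : ∀ i, Fin (w i)) (b : ℕ) :
    (∑' a : AA w ω, 1 / (b : ℝ) ^ (a : ℕ)) = YY w b ω := by
  classical
  rw [tsum_subtype (AA w ω) (fun a : ℕ => 1 / (b : ℝ) ^ a)]
  unfold YY
  congr 1
  funext i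
  unfold bt rr
  by_cases h1 : i = 0
  · rw [Set.indicator_of_notMem (by intro h; exact h.1 h1), if_pos h1, mul_zero]
  · by_cases h2 : (ω i : ℕ) = 0
    · rw [Set.indicator_of_mem (show i ∈ AA w ω from ⟨h1, h2⟩), if_pos h2, if_neg h1, one_mul]
    · rw [Set.indicator_of_notMem (by intro h; exact h2 h.2), if_neg h2, zero_mul]

lemma aa_card (w : ℕ → ℕ) (ω : ∀ i, Fin (w i)) (N : ℕ) :
    ((AA w ω ∩ Set.Icc 1 N).ncard : ℝ) ≤ Ct w (N + 1) ω := by
  classical
  have h1 : AA w ω ∩ Set.Icc 1 N = (((range (N + 1)).filter (fun i => i ≠ 0 ∧ (ω i : ℕ) = 0) : Finset ℕ) : Set ℕ) := by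
    ext i
    simp only [AA, Set.mem_inter_iff, Set.mem_setOf_eq, Set.mem_Icc, coe_filter, mem_range]
    constructor
    · rintro ⟨⟨h1, h2⟩, h3, h4⟩
      exact ⟨by omega, h1, h2⟩
    · rintro ⟨h1, h2, h3⟩
      exact ⟨⟨h2, h3⟩, by omega, by omega⟩
  rw [h1, Set.ncard_coe_finset, card_filter]
  push_cast
  unfold Ct
  refine sum_le_sum fun i _ => ?_
  unfold bt
  split_ifs with h2 h3 h3
  · exact le_rfl
  · exact absurd h2.2 h3
  · norm_num
  · exact le_rfl

lemma aa_count (α β : ℕ) (hα : 1 ≤ α) (hβ : 1 ≤ β) [∀ i, NeZero (wg α β i)] :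
    ∀ᵐ ω ∂(unif (wg α β)), ∀ᶠ N : ℕ in atTop, ((AA (wg α β) ω ∩ Set.Icc 1 N).ncard : ℝ) ≤
      N * (Real.log (Real.log N)) ^ (β + 1) / (Real.log N) ^ α := by
  have h := as_count (wg α β) (Ex_summable hα hβ) (Eventually.of_forall fun j => Ex_pos hα hβ _ Nat.one_le_two_pow)
  filter_upwards [h] with ω hω
  filter_upwards [(tendsto_add_atTop_nat 1).eventually hω, count_final α β hβ] with N h1 h2
  exact (aa_card _ ω N).trans (h1.trans h2)

theorem result :
    (∀ X Γ : Set ℝ, X.Countable → Γ.Countable → (∀ x ∈ X, Irrational x ∧ ¬ Liouville x) →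
      ∃ A : Set ℕ, 0 ∉ A ∧
        (∀ᶠ N : ℕ in atTop, ((A ∩ Set.Icc 1 N).ncard : ℝ) ≤
          N * (Real.log (Real.log N)) ^ 3 / Real.log N) ∧
        ∀ b : ℕ, 2 ≤ b → ∀ x ∈ X, ∀ c ∈ Γ,
          JointlyNormal b 1 (fun _ => x * (∑' a : A, 1 / (b : ℝ) ^ (a : ℕ)) + c)) ∧
    ∃ A : Set ℕ, 0 ∉ A ∧
      (∀ᶠ N : ℕ in atTop, ((A ∩ Set.Icc 1 N).ncard : ℝ) ≤
        N * (Real.log (Real.log N)) ^ 8 / (Real.log N) ^ 3) ∧
      ∀ b : ℕ, 2 ≤ b → ∀ (k : ℕ) (x c : Fin k → ℝ), (∀ j, IsAlgebraic ℚ (x j)) →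
        (∀ j, IsAlgebraic ℚ (c j)) → LinearIndependent ℚ (Fin.cons 1 x : Fin (k + 1) → ℝ) →
        JointlyNormal b k (fun j => x j * (∑' a : A, 1 / (b : ℝ) ^ (a : ℕ)) + c j) := by
  classical
  constructor
  · intro X Γ hX hΓ hXL
    haveI : ∀ i, NeZero (wg 1 2 i) := fun i => ⟨by have := wg_two 1 2 i; omega⟩
    have hae : ∀ᵐ ω ∂(unif (wg 1 2)), ∀ b ∈ {b : ℕ | 2 ≤ b}, ∀ h ∈ {h : ℤ | h ≠ 0}, ∀ x ∈ X, ∀ c ∈ Γ,
        Tendsto (fun N : ℕ => SS (fun n => ((h * x) * YY (wg 1 2) b ω + h * c) * (b : ℝ) ^ n) N / (N : ℂ))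
          atTop (𝓝 0) := by
      rw [ae_ball_iff (Set.to_countable _)]
      intro b hb
      rw [ae_ball_iff (Set.to_countable _)]
      intro h hh
      rw [ae_ball_iff hX]
      intro x hx
      rw [ae_ball_iff hΓ]
      intro c hc
      obtain ⟨e, he, hG⟩ := gg_liou hb (hXL x hx).1 (hXL x hx).2 hh
      refine as_bern (wg 1 2) (wg_two 1 2) (fun N => psi 1 2 N + 2)
        (fun N i hi => wg_le le_rfl (by norm_num) N i hi) b hb (h * x) (h * c) ?_
      intro C
      exact rich_of 1 0 le_rfl hb he hG C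
    obtain ⟨ω, hω1, hω2⟩ := (hae.and (aa_count 1 2 le_rfl (by norm_num))).exists
    refine ⟨AA (wg 1 2) ω, fun h => h.1 rfl, ?_, ?_⟩
    · filter_upwards [hω2] with N hN
      simpa using hN
    · intro b hb x hx c hc
      rw [aa_sum]
      apply jn hb
      intro h hh
      have h0 : h 0 ≠ 0 := by
        intro h0
        apply hh
        funext j
        rw [Subsingleton.elim j 0, h0]
        rfl
      refine (hω1 b hb (h 0) h0 x hx c hc).congr fun N => ?_
      congr 2
      funext n
      rw [Fin.sum_univ_one]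
      congr 1
      ring
  · haveI : ∀ i, NeZero (wg 3 7 i) := fun i => ⟨by have := wg_two 3 7 i; omega⟩
    have hae : ∀ᵐ ω ∂(unif (wg 3 7)), ∀ b ∈ {b : ℕ | 2 ≤ b},
        ∀ x ∈ {y : ℝ | IsAlgebraic ℚ y ∧ Irrational y}, ∀ c ∈ {y : ℝ | IsAlgebraic ℚ y},
        Tendsto (fun N : ℕ => SS (fun n => (x * YY (wg 3 7) b ω + c) * (b : ℝ) ^ n) N / (N : ℂ))
          atTop (𝓝 0) := by
      rw [ae_ball_iff (Set.to_countable _)]
      intro b hb
      rw [ae_ball_iff alg_countable]
      intro x hx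
      rw [ae_ball_iff (Algebraic.countable ℚ ℝ)]
      intro c _
      obtain ⟨e, he, hG⟩ := gg_alg hb hx.1 hx.2
      refine as_bern (wg 3 7) (wg_two 3 7) (fun N => psi 3 7 N + 2)
        (fun N i hi => wg_le (by norm_num) (by norm_num) N i hi) b hb x c ?_
      intro C
      exact rich_of 3 5 (by norm_num) hb he hG C
    obtain ⟨ω, hω1, hω2⟩ := (hae.and (aa_count 3 7 (by norm_num) (by norm_num))).exists
    refine ⟨AA (wg 3 7) ω, fun h => h.1 rfl, hω2, ?_⟩
    intro b hb k x c hx hc hlin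
    rw [aa_sum]
    apply jn hb
    intro h hh
    have hy1 : IsAlgebraic ℚ (∑ j, (h j : ℝ) * x j) := by
      refine Finset.sum_induction _ (fun z => IsAlgebraic ℚ z) (fun _ _ ha hb => ha.add hb)
        isAlgebraic_zero fun j _ => ?_
      exact IsAlgebraic.mul (isAlgebraic_intCast (h j)) (hx j)
    have hc1 : IsAlgebraic ℚ (∑ j, (h j : ℝ) * c j) := by
      refine Finset.sum_induction _ (fun z => IsAlgebraic ℚ z) (fun _ _ ha hb => ha.add hb)
        isAlgebraic_zero fun j _ => ?_
      exact IsAlgebraic.mul (isAlgebraic_intCast (h j)) (hc j)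
    have hy2 : Irrational (∑ j, (h j : ℝ) * x j) := by
      rintro ⟨q, hr⟩
      rw [Fintype.linearIndependent_iff] at hlin
      have h1 := hlin (Fin.cons (-q) fun j => (h j : ℚ)) (by
        rw [Fin.sum_univ_succ]
        simp only [Fin.cons_zero, Fin.cons_succ, Rat.smul_def, Rat.cast_neg, Rat.cast_intCast, mul_one]
        rw [hr]
        ring)
      apply hh
      funext j
      have h2 := h1 j.succ
      rw [Fin.cons_succ] at h2
      exact_mod_cast h2
    refine (hω1 b hb _ ⟨hy1, hy2⟩ _ hc1).congr fun N => ?_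
    congr 2
    funext n
    congr 1
    simp only [mul_add]
    rw [sum_add_distrib, sum_mul]
    congr 1
    exact sum_congr rfl fun j _ => by ring

end Pool.Agent.Results.MP_0308e6_nt.SparseFactor
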